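import Pool.Agent.X27.Cln.Iso

/-!
# `μ` of abelian extensions of imaginary quadratic fields and of their real subfields

Let `K ⊆ ℂ` be a finite extension of `ℚ`, `A` an abelian subgroup of `Aut K` and `c ∈ Aut K` an involution which is
not in `A` and normalises `A` (for example `K / ℚ` Galois, `A = Gal(K / k)` abelian with `k` imaginary quadratic, and
`c` the complex conjugation). Let `B` be the group of the `a ∈ A` with `c a c = a⁻¹`. For `D ≤ Aut K` let `fx K D` be the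
field of the `x ∈ K` fixed by `D`.

* If `p ∤ |B|`, then for all number fields `E`, `v_p h(K E) ≤ v_p h(K^B E) + ∑_{b ∈ B} v_p h(K^{⟨b c⟩} E)`.
* If `K / ℚ` is Galois and `A` has index `2`, then `K^B` is an abelian extension of `ℚ`.
* So, granted the theorem of Ferrero and Washington, if `p` is odd and `p ∤ |B|`, then `μ(K) = 0` if and only if
  `μ(K^{⟨b c⟩}) = 0` for all `b ∈ B`.
* If `K / ℚ` is Galois and `K / k` is abelian of odd degree prime to `p`, `k` imaginary quadratic, then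
  `μ(K) = 0` if and only if `μ(K ∩ ℝ) = 0`.
-/

set_option autoImplicit false

open NumberField IntermediateField

namespace Pool.Agent.Results.MP_b78433_nt.RealSubfields

open Pool.Agent.X27.Cln

/-- The theorem of Ferrero and Washington for the prime `p`. -/
def FerreroWashington (p : ℕ) : Prop :=
  ∀ F : IntermediateField ℚ ℂ, FiniteDimensional ℚ F → IsGalois ℚ F →
    (∀ σ τ : F ≃ₐ[ℚ] F, σ * τ = τ * σ) → MuZero p F

/-- The real numbers in `K`. -/
noncomputable def realPart (K : IntermediateField ℚ ℂ) : IntermediateField ℚ ℂ :=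
  K ⊓ (IsScalarTower.toAlgHom ℚ ℝ ℂ).fieldRange

theorem mem_realPart (K : IntermediateField ℚ ℂ) (x : ℂ) : x ∈ realPart K ↔ x ∈ K ∧ starRingEnd ℂ x = x := by
  unfold realPart
  rw [IntermediateField.mem_inf]
  constructor
  · rintro ⟨h, r, rfl⟩
    exact ⟨h, Complex.conj_ofReal r⟩
  · rintro ⟨h, h2⟩
    obtain ⟨r, rfl⟩ := Complex.conj_eq_iff_real.1 h2
    exact ⟨h, r, rfl⟩

theorem mu_iff {p : ℕ} (hp : p.Prime) (hp2 : p ≠ 2) (hFW : FerreroWashington p) (K : IntermediateField ℚ ℂ)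
    [hK : FiniteDimensional ℚ K] [hG : IsGalois ℚ K] (A B : Subgroup (K ≃ₐ[ℚ] K)) (c : K ≃ₐ[ℚ] K)
    (hA : ∀ a ∈ A, ∀ b ∈ A, a * b = b * a) (hAi : A.index = 2) (hcA : c ∉ A) (hc : c * c = 1)
    (hB : ∀ a, a ∈ B ↔ a ∈ A ∧ c * a * c = a⁻¹) (hpB : ¬ p ∣ Nat.card B) :
    MuZero p K ↔ ∀ b ∈ B, MuZero p (fx K (Subgroup.zpowers (b * c))) := by
  have hm := fun {a b : K ≃ₐ[ℚ] K} => Subgroup.mul_mem_iff_of_index_two hAi (a := a) (b := b)
  have hAc : ∀ g, g ∈ A ∨ g * c ∈ A := by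
    intro g
    by_cases hg : g ∈ A
    · exact Or.inl hg
    · exact Or.inr (hm.2 ⟨fun h => absurd h hg, fun h => absurd h hcA⟩)
  have hn : ∀ a ∈ A, c * a * c ∈ A := by
    intro a ha
    rw [hm, hm]
    exact ⟨fun h => absurd (h.2 ha) hcA, fun h => absurd h hcA⟩
  have hBc : ∀ b ∈ B, c * b * c = b⁻¹ := fun b hb => ((hB b).1 hb).2
  have hcB : c ∉ B := fun h => hcA ((hB c).1 h).1
  have hab := abelian_fx K (comm_mem hA hAc hn hc hB)
  have hfx := fx_fd K B
  constructor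
  · intro h b hb
    refine mu_sub hp K hK _ ?_ h
    have h1 : (b * c) * (b * c) = 1 := by
      rw [mul_assoc, ← mul_assoc c b c, hBc b hb, mul_inv_cancel]
    have h2 : Nat.card (Subgroup.zpowers (b * c)) ∣ 2 := by
      rw [Nat.card_zpowers]
      apply orderOf_dvd_of_pow_eq_one
      rw [pow_two, h1]
    intro h3
    exact hp2 ((Nat.prime_dvd_prime_iff_eq hp Nat.prime_two).1 (h3.trans h2))
  · intro h
    exact mu_dih hp K hK hBc hc hcB hpB (hFW _ hfx hab.1 hab.2) h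

theorem mu_real {p : ℕ} (hp : p.Prime) (hp2 : p ≠ 2) (hFW : FerreroWashington p) (k K : IntermediateField ℚ ℂ)
    [hK : FiniteDimensional ℚ K] [hG : IsGalois ℚ K] (hkK : k ≤ K) (hk2 : Module.finrank ℚ k = 2)
    (him : ∃ x ∈ k, starRingEnd ℂ x ≠ x)
    (hab : ∀ σ τ : K ≃ₐ[ℚ] K, (∀ x : K, (x : ℂ) ∈ k → σ x = x) → (∀ x : K, (x : ℂ) ∈ k → τ x = x) →
      σ * τ = τ * σ) (h4 : ¬ 4 ∣ Module.finrank ℚ K) (hpK : ¬ p ∣ Module.finrank ℚ K) :
    MuZero p K ↔ MuZero p (realPart K) := by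
  obtain ⟨A, hAm, hAi, hcard⟩ := exists_A k K hkK hk2
  have hA : ∀ a ∈ A, ∀ b ∈ A, a * b = b * a := fun a ha b hb => hab a b ((hAm a).1 ha) ((hAm b).1 hb)
  let conjQ : ℂ ≃ₐ[ℚ] ℂ := Complex.conjAe.restrictScalars ℚ
  let c : K ≃ₐ[ℚ] K := conjQ.restrictNormal K
  have hcx : ∀ x : K, ((c x : K) : ℂ) = starRingEnd ℂ (x : ℂ) := fun x =>
    AlgEquiv.restrictNormal_commutes conjQ K x
  have hc : c * c = 1 := by
    ext x
    change ((c (c x) : K) : ℂ) = x
    rw [hcx, hcx, Complex.conj_conj]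
  have hcA : c ∉ A := by
    intro h
    obtain ⟨x, hx, hxc⟩ := him
    apply hxc
    have := (hAm c).1 h ⟨x, hkK hx⟩ hx
    rw [← hcx ⟨x, hkK hx⟩, this]
  have hAcomm := hA
  let B : Subgroup (K ≃ₐ[ℚ] K) :=
    { carrier := {a | a ∈ A ∧ c * a * c = a⁻¹}
      mul_mem' := by
        rintro a b ⟨ha, ha'⟩ ⟨hb, hb'⟩
        refine ⟨A.mul_mem ha hb, ?_⟩
        have h1 : c * (a * b) * c = (c * a * c) * (c * b * c) := by
          calc c * (a * b) * c = c * a * (1 * (b * c)) := by group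
            _ = c * a * ((c * c) * (b * c)) := by rw [hc]
            _ = (c * a * c) * (c * b * c) := by group
        rw [h1, ha', hb', hA a ha b hb, mul_inv_rev]
      one_mem' := ⟨A.one_mem, by rw [mul_one, hc, inv_one]⟩
      inv_mem' := by
        rintro a ⟨ha, ha'⟩
        refine ⟨A.inv_mem ha, ?_⟩
        have hci : c⁻¹ = c := inv_eq_of_mul_eq_one_right hc
        have h1 : c * a⁻¹ * c = (c * a * c)⁻¹ := by
          rw [mul_inv_rev, mul_inv_rev, hci, mul_assoc]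
        rw [h1, ha'] }
  have hB : ∀ a, a ∈ B ↔ a ∈ A ∧ c * a * c = a⁻¹ := fun a => Iff.rfl
  have hBA : B ≤ A := fun a ha => ((hB a).1 ha).1
  have hodd : ¬ 2 ∣ Nat.card B := by
    intro h
    apply h4
    obtain ⟨t, ht⟩ := h.trans (Subgroup.card_dvd_of_le hBA)
    rw [← hcard, ht]
    exact ⟨t, by ring⟩
  have hpB : ¬ p ∣ Nat.card B := by
    intro h
    apply hpK
    rw [← hcard]
    exact (h.trans (Subgroup.card_dvd_of_le hBA)).mul_right 2
  rw [mu_iff hp hp2 hFW K A B c hA hAi hcA hc hB hpB]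
  have hfc : fx K (Subgroup.zpowers c) = realPart K := by
    ext x
    rw [mem_realPart]
    constructor
    · rintro ⟨y, hy, rfl⟩
      refine ⟨y.2, ?_⟩
      have h1 : c y = y := (mem_fixedField_iff _ _).1 hy c (Subgroup.mem_zpowers c)
      have h2 := hcx y
      rw [h1] at h2
      exact h2.symm
    · rintro ⟨hx, hx2⟩
      refine ⟨⟨x, hx⟩, ?_, rfl⟩
      have h1 : c ⟨x, hx⟩ = ⟨x, hx⟩ := by
        apply Subtype.ext
        rw [hcx]
        exact hx2
      refine (mem_fixedField_iff _ _).2 fun f hf => ?_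
      have h2 : Subgroup.zpowers c ≤ MulAction.stabilizer (K ≃ₐ[ℚ] K) (⟨x, hx⟩ : K) := by
        rw [Subgroup.zpowers_le]
        exact h1
      exact h2 hf
  constructor
  · intro h
    have := h 1 B.one_mem
    rw [one_mul, hfc] at this
    exact this
  · intro h b hb
    -- `b = d * d` with `d` in `B`
    obtain ⟨s, hs⟩ : ∃ s, Nat.card B = 2 * s + 1 := by
      rcases Nat.even_or_odd' (Nat.card B) with ⟨s, hs | hs⟩
      · exact absurd ⟨s, hs⟩ hodd
      · exact ⟨s, hs⟩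
    set d : K ≃ₐ[ℚ] K := b ^ (s + 1) with hd
    have hdB : d ∈ B := B.pow_mem hb _
    have hbd : b = d * d := by
      have h1 : b ^ Nat.card B = 1 := by
        have := pow_card_eq_one' (x := (⟨b, hb⟩ : B))
        exact congrArg Subtype.val this
      rw [hd, ← pow_add]
      have h2 : s + 1 + (s + 1) = Nat.card B + 1 := by omega
      rw [h2, pow_succ, h1, one_mul]
    have hci : c⁻¹ = c := inv_eq_of_mul_eq_one_right hc
    have hconj : b * c = d * c * d⁻¹ := by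
      have h1 : c * d⁻¹ * c = d := by
        have := ((hB _).1 (B.inv_mem hdB)).2
        rwa [inv_inv] at this
      have h2 : c * d⁻¹ = d * c := by
        calc c * d⁻¹ = c * d⁻¹ * (c * c) := by rw [hc, mul_one]
          _ = (c * d⁻¹ * c) * c := by group
          _ = d * c := by rw [h1]
      rw [mul_assoc d c d⁻¹, h2, ← mul_assoc, ← hbd]
    obtain ⟨e⟩ := fx_conj K c d
    have f1 := fx_fd K (Subgroup.zpowers c)
    have f2 := fx_fd K (Subgroup.zpowers (d * c * d⁻¹))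
    rw [hconj]
    refine mu_iso hp _ _ e ?_
    rw [hfc]
    exact h

theorem result (p : ℕ) (hp : p.Prime) :
    (∀ (K E : IntermediateField ℚ ℂ) [FiniteDimensional ℚ K] [FiniteDimensional ℚ E]
      (B : Subgroup (K ≃ₐ[ℚ] K)) (c : K ≃ₐ[ℚ] K) [Fintype B], (∀ b ∈ B, c * b * c = b⁻¹) → c * c = 1 →
      c ∉ B → ¬ p ∣ Nat.card B →
      padicValNat p (Nat.card (ClassGroup (𝓞 ↥(K ⊔ E)))) ≤
        padicValNat p (Nat.card (ClassGroup (𝓞 ↥(fx K B ⊔ E)))) +
        ∑ b : B, padicValNat p (Nat.card (ClassGroup (𝓞 ↥(fx K (Subgroup.zpowers (b.1 * c)) ⊔ E))))) ∧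
    (p ≠ 2 → FerreroWashington p →
      (∀ (K : IntermediateField ℚ ℂ) [FiniteDimensional ℚ K] [IsGalois ℚ K] (A B : Subgroup (K ≃ₐ[ℚ] K))
        (c : K ≃ₐ[ℚ] K), (∀ a ∈ A, ∀ b ∈ A, a * b = b * a) → A.index = 2 → c ∉ A → c * c = 1 →
        (∀ a, a ∈ B ↔ a ∈ A ∧ c * a * c = a⁻¹) → ¬ p ∣ Nat.card B →
        (MuZero p K ↔ ∀ b ∈ B, MuZero p (fx K (Subgroup.zpowers (b * c))))) ∧
      ∀ (k K : IntermediateField ℚ ℂ) [FiniteDimensional ℚ K] [IsGalois ℚ K], k ≤ K →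
        Module.finrank ℚ k = 2 → (∃ x ∈ k, starRingEnd ℂ x ≠ x) →
        (∀ σ τ : K ≃ₐ[ℚ] K, (∀ x : K, (x : ℂ) ∈ k → σ x = x) → (∀ x : K, (x : ℂ) ∈ k → τ x = x) →
          σ * τ = τ * σ) →
        ¬ 4 ∣ Module.finrank ℚ K → ¬ p ∣ Module.finrank ℚ K → (MuZero p K ↔ MuZero p (realPart K))) := by
  have hpf : Fact p.Prime := ⟨hp⟩
  refine ⟨fun K E _ _ B c _ hB hc hcB hpB => padic_dih K E hB hc hcB hpB, fun hp2 hFW => ⟨?_, ?_⟩⟩
  · intro K _ _ A B c hA hAi hcA hc hB hpB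
    exact mu_iff hp hp2 hFW K A B c hA hAi hcA hc hB hpB
  · intro k K _ _ hkK hk2 him hab h4 hpK
    exact mu_real hp hp2 hFW k K hkK hk2 him hab h4 hpK

end Pool.Agent.Results.MP_b78433_nt.RealSubfields
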