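import Pool.Agent.X310.MuCx
import Pool.Agent.X310.MuGrp
import Pool.Agent.X27.Cln.Iso

/-!
# `μ` of abelian extensions of imaginary quadratic fields and of their real subfields, in all degrees

Let `N ⊆ ℂ` be a finite Galois extension of `ℚ`, `c ∈ Aut N` with `c² = 1` and `comms c` the subgroup generated by the
commutators `g c g⁻¹ c⁻¹`. For `D ≤ Aut N` let `fx N D` be the field of the `x ∈ N` fixed by `D`.

* If `p` is odd and does not divide the order of `comms c`, then for all Galois extensions `E` of `ℚ` of `p`-power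
  degree `v_p h(N E) ≤ |Aut N| (v_p h(N^c E) + v_p h(N^{comms c} E))`.
* If `Aut N` has an abelian subgroup of index `2` which does not contain `c`, then `N^{comms c}` is an abelian
  extension of `ℚ`. So, granted the theorem of Ferrero and Washington, `μ(N) = 0` if and only if `μ(N^c) = 0`.
* If `N` is abelian over an imaginary quadratic field and `p` is odd and does not divide `[N : ℚ]`, then (again granted
  the theorem of Ferrero and Washington) `μ(N) = 0` if and only if `μ(N ∩ ℝ) = 0`.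
-/

set_option autoImplicit false

open NumberField IntermediateField

namespace Pool.Agent.Results.MP_b78433_nt.RealSubfieldsAllDegrees

open Pool.Agent.X27.Cln Pool.Agent.X310.Mu

/-- The `p`-adic valuation of the class number. -/
noncomputable def vh (p : ℕ) (L : IntermediateField ℚ ℂ) : ℕ := padicValNat p (Nat.card (ClassGroup (𝓞 ↥L)))

/-- For odd `p`, `μ = 0` for the cyclotomic `ℤ_p`-extension of `F`: the `p`-adic valuation of the class number of
`F ℚ_m` is `O(m)`, where `ℚ_m` is the subfield of degree `p^m` of the field of the `p^{m+1}`-th roots of unity. -/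
def MuZero (p : ℕ) (F : IntermediateField ℚ ℂ) : Prop :=
  ∃ C : ℕ, ∀ m : ℕ, ∀ E : IntermediateField ℚ ℂ,
    E ≤ IntermediateField.adjoin ℚ {z : ℂ | z ^ (p ^ (m + 1)) = 1} →
    Module.finrank ℚ E = p ^ m →
    vh p (F ⊔ E) ≤ C * (m + 1)

/-- The theorem of Ferrero and Washington for the prime `p`. -/
def FerreroWashington (p : ℕ) : Prop :=
  ∀ F : IntermediateField ℚ ℂ, FiniteDimensional ℚ F → IsGalois ℚ F →
    (∀ σ τ : F ≃ₐ[ℚ] F, σ * τ = τ * σ) → MuZero p F

/-- `N/ℚ` is a finite Galois extension, `k ⊆ N` is an imaginary quadratic field and `N/k` is abelian. -/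
structure IsAbelianOver (k N : IntermediateField ℚ ℂ) : Prop where
  fin : FiniteDimensional ℚ N
  galois : IsGalois ℚ N
  le : k ≤ N
  quadratic : Module.finrank ℚ k = 2
  imaginary : ∃ x ∈ k, starRingEnd ℂ x ≠ x
  abelian : ∀ σ τ : N ≃ₐ[ℚ] N, (∀ x : N, (x : ℂ) ∈ k → σ x = x) → (∀ x : N, (x : ℂ) ∈ k → τ x = x) →
    σ * τ = τ * σ

/-- The real numbers in `K`. -/
noncomputable def realPart (K : IntermediateField ℚ ℂ) : IntermediateField ℚ ℂ :=
  K ⊓ (IsScalarTower.toAlgHom ℚ ℝ ℂ).fieldRange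

theorem mem_realPart (K : IntermediateField ℚ ℂ) (x : ℂ) : x ∈ realPart K ↔ x ∈ K ∧ starRingEnd ℂ x = x := by
  unfold realPart
  rw [IntermediateField.mem_inf]
  constructor
  · rintro ⟨h, r, rfl⟩
    exact ⟨h, Complex.conj_ofReal r⟩
  · rintro ⟨h, h2⟩
    obtain ⟨r, rfl⟩ := Complex.conj_eq_iff_real.1 h2
    exact ⟨h, r, rfl⟩

theorem fx_bot (F : IntermediateField ℚ ℂ) : fx F ⊥ = F := by
  apply le_antisymm (fx_le F ⊥)
  intro x hx
  refine ⟨⟨x, hx⟩, (IntermediateField.mem_fixedField_iff ⊥ _).2 ?_, rfl⟩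
  intro f hf
  rw [Subgroup.mem_bot] at hf
  rw [hf]
  rfl

theorem card_bot {p : ℕ} (hp : p.Prime) {G : Type} [Group G] : ¬ p ∣ Nat.card (⊥ : Subgroup G) := by
  rw [Subgroup.card_bot]
  exact hp.one_lt.ne' ∘ Nat.dvd_one.1

theorem padic_pair {p : ℕ} (hp : p.Prime) (hp2 : p ≠ 2) (N E : IntermediateField ℚ ℂ) (hN : FiniteDimensional ℚ N)
    (hE : FiniteDimensional ℚ E) (hEg : IsGalois ℚ E) (m : ℕ) (hm : Module.finrank ℚ E = p ^ m)
    (c : N ≃ₐ[ℚ] N) (hc : c * c = 1) (hpc : ¬ p ∣ Nat.card (comms c)) :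
    vh p (N ⊔ E) ≤ Nat.card (N ≃ₐ[ℚ] N) *
      (vh p (fx N (Subgroup.zpowers c) ⊔ E) + vh p (fx N (comms c) ⊔ E)) := by
  haveI : Fact p.Prime := ⟨hp⟩
  have h1 := padic_dom_cx (p := p) N E m hm ⊥ (pair c) (card_bot hp)
    (by rintro (_ | _); exacts [hpc, card_zpowers_two hp hp2 hc]) (dominates_pair hc ⊥)
  rw [fx_bot, Fintype.sum_bool] at h1
  exact h1

theorem mu_pair {p : ℕ} (hp : p.Prime) (hp2 : p ≠ 2) (N : IntermediateField ℚ ℂ) (hN : FiniteDimensional ℚ N)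
    (c : N ≃ₐ[ℚ] N) (hc : c * c = 1) (hpc : ¬ p ∣ Nat.card (comms c)) (h : MuZero p (fx N (Subgroup.zpowers c)))
    (h' : MuZero p (fx N (comms c))) : MuZero p N := by
  obtain ⟨C, hC⟩ := h
  obtain ⟨C', hC'⟩ := h'
  refine ⟨Nat.card (N ≃ₐ[ℚ] N) * (C + C'), fun m E hE hEf => ?_⟩
  have hfd : FiniteDimensional ℚ E := FiniteDimensional.of_finrank_pos (by rw [hEf]; exact pow_pos hp.pos m)
  have hg : IsGalois ℚ E := abelian_of_le _ (pow_pos hp.pos _) E hE
  refine (padic_pair hp hp2 N E hN hfd hg m hEf c hc hpc).trans ?_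
  rw [mul_assoc, add_mul]
  exact Nat.mul_le_mul_left _ (add_le_add (hC m E hE hEf) (hC' m E hE hEf))

theorem mu_sub {p : ℕ} (hp : p.Prime) (F : IntermediateField ℚ ℂ) (_ : FiniteDimensional ℚ F)
    (D : Subgroup (F ≃ₐ[ℚ] F)) (hD : ¬ p ∣ Nat.card D) (h : MuZero p F) : MuZero p (fx F D) := by
  have hpf : Fact p.Prime := ⟨hp⟩
  obtain ⟨C, hC⟩ := h
  refine ⟨C, fun m E hE hEf => ?_⟩
  have hfd : FiniteDimensional ℚ E := FiniteDimensional.of_finrank_pos (by rw [hEf]; exact pow_pos hp.pos m)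
  exact (padic_ge_cx F E D hD).trans (hC m E hE hEf)

/-- The quotient by `comms c` is abelian. -/
theorem comm_mem_comms {G : Type} [Group G] {A : Subgroup G} {c : G} (hA : ∀ a ∈ A, ∀ b ∈ A, a * b = b * a)
    (hAi : A.index = 2) (hcA : c ∉ A) (g h : G) : g * h * g⁻¹ * h⁻¹ ∈ comms c := by
  haveI := comms_normal c
  let q := QuotientGroup.mk' (comms c)
  have hm := fun {a b : G} => Subgroup.mul_mem_iff_of_index_two hAi (a := a) (b := b)
  have hAc : ∀ g, g ∈ A ∨ g * c ∈ A := by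
    intro g
    by_cases hg : g ∈ A
    · exact Or.inl hg
    · exact Or.inr (hm.2 ⟨fun h => absurd h hg, fun h => absurd h hcA⟩)
  have hcc : ∀ g, Commute (q g) (q c) := by
    intro g
    have h1 : q (g * c * g⁻¹ * c⁻¹) = 1 := (QuotientGroup.eq_one_iff _).2 (Subgroup.subset_closure ⟨g, rfl⟩)
    rw [map_mul, map_mul, map_mul, map_inv, map_inv, mul_inv_eq_one, mul_inv_eq_iff_eq_mul] at h1
    exact h1
  have hform : ∀ g, ∃ a ∈ A, q g = q a ∨ q g = q a * (q c)⁻¹ := by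
    intro g
    rcases hAc g with hg | hg
    · exact ⟨g, hg, Or.inl rfl⟩
    · exact ⟨g * c, hg, Or.inr (by rw [map_mul, mul_inv_cancel_right])⟩
  have hab : ∀ a ∈ A, ∀ b ∈ A, Commute (q a) (q b) := by
    intro a ha b hb
    change q a * q b = q b * q a
    rw [← map_mul, ← map_mul, hA a ha b hb]
  have hcom : Commute (q g) (q h) := by
    obtain ⟨a, ha, h1⟩ := hform g
    obtain ⟨b, hb, h2⟩ := hform h
    have h3 := hab a ha b hb
    have h4 := (hcc a).inv_right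
    have h5 := (hcc b).inv_right
    rcases h1 with h1 | h1 <;> rcases h2 with h2 | h2 <;> rw [h1, h2]
    · exact h3
    · exact h3.mul_right h4
    · exact h3.mul_left h5.symm
    · exact (h3.mul_left h5.symm).mul_right (h4.mul_left (Commute.refl _))
  rw [← QuotientGroup.eq_one_iff]
  change q (g * h * g⁻¹ * h⁻¹) = 1
  rw [map_mul, map_mul, map_mul, map_inv, map_inv, mul_inv_eq_one, mul_inv_eq_iff_eq_mul]
  exact hcom

theorem mu_real {p : ℕ} (hp : p.Prime) (hp2 : p ≠ 2) (hFW : FerreroWashington p) (k K : IntermediateField ℚ ℂ)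
    [hK : FiniteDimensional ℚ K] [hG : IsGalois ℚ K] (hkK : k ≤ K) (hk2 : Module.finrank ℚ k = 2)
    (him : ∃ x ∈ k, starRingEnd ℂ x ≠ x)
    (hab : ∀ σ τ : K ≃ₐ[ℚ] K, (∀ x : K, (x : ℂ) ∈ k → σ x = x) → (∀ x : K, (x : ℂ) ∈ k → τ x = x) →
      σ * τ = τ * σ) (hpK : ¬ p ∣ Module.finrank ℚ K) :
    MuZero p K ↔ MuZero p (realPart K) := by
  obtain ⟨A, hAm, hAi, hcard⟩ := exists_A k K hkK hk2
  have hA : ∀ a ∈ A, ∀ b ∈ A, a * b = b * a := fun a ha b hb => hab a b ((hAm a).1 ha) ((hAm b).1 hb)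
  let conjQ : ℂ ≃ₐ[ℚ] ℂ := Complex.conjAe.restrictScalars ℚ
  let c : K ≃ₐ[ℚ] K := conjQ.restrictNormal K
  have hcx : ∀ x : K, ((c x : K) : ℂ) = starRingEnd ℂ (x : ℂ) := fun x =>
    AlgEquiv.restrictNormal_commutes conjQ K x
  have hc : c * c = 1 := by
    ext x
    change ((c (c x) : K) : ℂ) = x
    rw [hcx, hcx, Complex.conj_conj]
  have hcA : c ∉ A := by
    intro h
    obtain ⟨x, hx, hxc⟩ := him
    apply hxc
    have := (hAm c).1 h ⟨x, hkK hx⟩ hx
    rw [← hcx ⟨x, hkK hx⟩, this]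
  have hpc : ¬ p ∣ Nat.card (comms c) := by
    intro h
    apply hpK
    rw [← IsGalois.card_aut_eq_finrank]
    exact h.trans (Subgroup.card_subgroup_dvd_card _)
  have hfc : fx K (Subgroup.zpowers c) = realPart K := by
    ext x
    rw [mem_realPart]
    constructor
    · rintro ⟨y, hy, rfl⟩
      refine ⟨y.2, ?_⟩
      have h1 : c y = y := (mem_fixedField_iff _ _).1 hy c (Subgroup.mem_zpowers c)
      have h2 := hcx y
      rw [h1] at h2
      exact h2.symm
    · rintro ⟨hx, hx2⟩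
      refine ⟨⟨x, hx⟩, ?_, rfl⟩
      have h1 : c ⟨x, hx⟩ = ⟨x, hx⟩ := by
        apply Subtype.ext
        rw [hcx]
        exact hx2
      refine (mem_fixedField_iff _ _).2 fun f hf => ?_
      have h2 : Subgroup.zpowers c ≤ MulAction.stabilizer (K ≃ₐ[ℚ] K) (⟨x, hx⟩ : K) := by
        rw [Subgroup.zpowers_le]
        exact h1
      exact h2 hf
  rw [← hfc]
  constructor
  · exact mu_sub hp K hK _ (card_zpowers_two hp hp2 hc)
  · intro h
    have h1 := abelian_fx K (B := comms c) (comm_mem_comms hA hAi hcA)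
    exact mu_pair hp hp2 K hK c hc hpc h (hFW _ (fx_fd K _) h1.1 h1.2)

theorem result (p : ℕ) (hp : p.Prime) (hp2 : p ≠ 2) :
    (∀ (N E : IntermediateField ℚ ℂ), FiniteDimensional ℚ N → FiniteDimensional ℚ E → IsGalois ℚ E →
      ∀ m, Module.finrank ℚ E = p ^ m → ∀ c : N ≃ₐ[ℚ] N, c * c = 1 → ¬ p ∣ Nat.card (comms c) →
      vh p (N ⊔ E) ≤ Nat.card (N ≃ₐ[ℚ] N) *
        (vh p (fx N (Subgroup.zpowers c) ⊔ E) + vh p (fx N (comms c) ⊔ E))) ∧
    (FerreroWashington p → ∀ N : IntermediateField ℚ ℂ, FiniteDimensional ℚ N → IsGalois ℚ N →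
      ∀ (A : Subgroup (N ≃ₐ[ℚ] N)) (c : N ≃ₐ[ℚ] N), (∀ a ∈ A, ∀ b ∈ A, a * b = b * a) → A.index = 2 →
      c ∉ A → c * c = 1 → ¬ p ∣ Nat.card (comms c) →
      (MuZero p N ↔ MuZero p (fx N (Subgroup.zpowers c)))) ∧
    (FerreroWashington p → ∀ k N : IntermediateField ℚ ℂ, IsAbelianOver k N →
      ¬ p ∣ Module.finrank ℚ N → (MuZero p N ↔ MuZero p (realPart N))) := by
  refine ⟨fun N E hN hE hEg m hm c hc hpc => padic_pair hp hp2 N E hN hE hEg m hm c hc hpc, ?_, ?_⟩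
  · intro hFW N hN _ A c hA hAi hcA hc hpc
    have h1 := abelian_fx N (B := comms c) (comm_mem_comms hA hAi hcA)
    refine ⟨mu_sub hp N hN _ (card_zpowers_two hp hp2 hc), fun h => ?_⟩
    exact mu_pair hp hp2 N hN c hc hpc h (hFW _ (fx_fd N _) h1.1 h1.2)
  · rintro hFW k N ⟨_, _, hkN, hk2, him, hab⟩ hpN
    exact mu_real hp hp2 hFW k N hkN hk2 him hab hpN

end Pool.Agent.Results.MP_b78433_nt.RealSubfieldsAllDegrees
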